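import Pool.Agent.Cub.Tower

set_option autoImplicit false

/-!
# Rational cubic forms with conjugate singular points or conjugate linear subspaces

`E = K j` is the top of a tower of quadratic extensions of `ℚ` inside the number field `L`,
`d = [L : E]` is not divisible by three, and `U` is an `L`-subspace of `L ^ n` of dimension `t`,
contained in the `L`-span of an `E`-subspace `S` of `E ^ n` of dimension `r`.
-/

namespace Pool.Agent.Results.MP_facb15_nt.ClosedPointsPrimeToThree

open MvPolynomial Module Pool.Agent.Cub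

/-- A rational cubic form `f` in any number of variables has a nontrivial integer zero if it vanishes
on `U` and `(d - 1 - ⌊(d + 2) / 3⌋) r < d t`, or if all points of `U` are singular points of `f` and
`(d - 1 - ⌊(2 d + 2) / 3⌋) r < d t`, or if all points of `U` are singular points of `f`, `d` is `10`
or `11` and `r ≤ d - 2`. -/
theorem result (n : ℕ) (f : MvPolynomial (Fin n) ℚ) (hf : f.IsHomogeneous 3)
    (L : Type) [Field L] [Algebra ℚ L] [FiniteDimensional ℚ L]
    (K : ℕ → IntermediateField ℚ L) (j : ℕ) (hK0 : K 0 = ⊥)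
    (hK : ∀ i < j, K i ≤ K (i + 1) ∧ finrank ℚ (K (i + 1)) ≤ 2 * finrank ℚ (K i))
    (S : Submodule (K j) (Fin n → K j)) (U : Submodule L (Fin n → L)) (hU : U ≠ ⊥)
    (hUS : ∀ u ∈ U, u ∈ Submodule.span L
      ((fun (s : Fin n → K j) (i : Fin n) => algebraMap (K j) L (s i)) '' (S : Set (Fin n → K j))))
    (d t r : ℕ) (hd : finrank (K j) L = d) (ht : finrank L U = t) (hr : finrank (K j) S = r)
    (h3 : ¬ 3 ∣ d)
    (h : ((∀ u ∈ U, aeval u f = 0) ∧ (d - 1 - (d + 2) / 3) * r < d * t) ∨
      ((∀ u ∈ U, ∀ i, aeval u (pderiv i f) = 0) ∧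
        ((d - 1 - (2 * d + 2) / 3) * r < d * t ∨ (d = 10 ∨ d = 11) ∧ r + 2 ≤ d))) :
    ∃ x : Fin n → ℤ, x ≠ 0 ∧ eval (fun i => (x i : ℚ)) f = 0 := by
  subst hd ht hr
  exact integer_zero hf (zero_tower hf L K j hK0 hK S U hU hUS h3 h)

end Pool.Agent.Results.MP_facb15_nt.ClosedPointsPrimeToThree
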