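import Pool.Agent.Cub.Tower

set_option autoImplicit false

/-!
# Rational cubic forms with a linear section whose number of singular points is prime to three
-/

namespace Pool.Agent.Results.MP_facb15_nt.SingularPointCount

open MvPolynomial

/-- The singular points, over the algebraic closure of `ℚ`, of the projective hypersurface `g = 0`:
the points at which all partial derivatives of `g` vanish. -/
def SingularPoints {m : ℕ} (g : MvPolynomial (Fin m) ℚ) :
    Set (Projectivization (AlgebraicClosure ℚ) (Fin m → AlgebraicClosure ℚ)) :=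
  {P | ∀ i, aeval P.rep (pderiv i g) = 0}

/-- Let `f` be a rational cubic form in `n` variables and `A` an injective rational matrix with `m`
columns.  If the section `g = f ∘ A` has finitely many singular points over the algebraic closure,
their number `N` is not divisible by three, and `N ≤ 5`, or `m ≤ 6` and `N ≤ 11`, then `f` has a
nontrivial integer zero. -/
theorem result (n m : ℕ) (f : MvPolynomial (Fin n) ℚ) (hf : f.IsHomogeneous 3)
    (A : Matrix (Fin n) (Fin m) ℚ) (hA : ∀ z, A.mulVec z = 0 → z = 0)
    (g : MvPolynomial (Fin m) ℚ) (hg : g = aeval (fun i => ∑ j, C (A i j) * X j) f)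
    (hfin : (SingularPoints g).Finite) (h3 : ¬ 3 ∣ (SingularPoints g).ncard)
    (hN : (SingularPoints g).ncard ≤ 5 ∨ m ≤ 6 ∧ (SingularPoints g).ncard ≤ 11) :
    ∃ x : Fin n → ℤ, x ≠ 0 ∧ eval (fun i => (x i : ℚ)) f = 0 := by
  apply Cub.integer_zero hf
  have hg' : g = Cub.sec A f := hg
  obtain ⟨z, hz, hfz⟩ := Cub.zero_of_count (k := ℚ) (g := g)
    (by rw [hg']; exact Cub.sec_homog A hf) hfin h3 hN
  rw [hg', Cub.aeval_sec] at hfz
  refine ⟨_, ?_, hfz⟩
  intro h0
  exact hz (hA z h0)

end Pool.Agent.Results.MP_facb15_nt.SingularPointCount
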